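import Pool.Agent.W710.DP.Stm1

/-! Project DP, part GLIP: the gradient of the functional is Lipschitz. -/

set_option autoImplicit false

namespace Pool.Agent.W409.DP

open Pool.Agent.W710.DP

lemma unifK (T e : ℝ) (w : List Letter) (hw : ∀ l ∈ w, Good T e l) : ∃ K : ℝ, 0 ≤ K ∧
    ∀ l ∈ w, ∀ x s x' s', |l.gx x s - l.gx x' s'| ≤ K * (|x - x'| + |s - s'|) ∧
      |l.gs x s - l.gs x' s'| ≤ K * (|x - x'| + |s - s'|) := by
  induction w with
  | nil => exact ⟨0, le_rfl, fun l hl => by simp at hl⟩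
  | cons a w ih =>
    obtain ⟨K, hK, h⟩ := ih (fun l hl => hw l (List.mem_cons_of_mem _ hl))
    obtain ⟨K', hK', h'⟩ := (hw a List.mem_cons_self).lip
    refine ⟨max K K', le_max_of_le_left hK, fun l hl x s x' s' => ?_⟩
    have hn : 0 ≤ |x - x'| + |s - s'| := by positivity
    rcases List.mem_cons.mp hl with rfl | hl
    · obtain ⟨h1, h2⟩ := h' x s x' s'
      exact ⟨h1.trans (mul_le_mul_of_nonneg_right (le_max_right _ _) hn),
        h2.trans (mul_le_mul_of_nonneg_right (le_max_right _ _) hn)⟩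
    · obtain ⟨h1, h2⟩ := h l hl x s x' s'
      exact ⟨h1.trans (mul_le_mul_of_nonneg_right (le_max_left _ _) hn),
        h2.trans (mul_le_mul_of_nonneg_right (le_max_left _ _) hn)⟩

lemma lt_mem (w : List Letter) (i : ℕ) (hi : i < w.length) : lt w i ∈ w := by
  unfold lt
  rw [List.getD_eq_getElem w idL hi]
  exact List.getElem_mem hi

theorem t_glip : S_glip := by
  intro b T e w hP hw
  obtain ⟨K, hK, hL⟩ := unifK T e w hw
  obtain ⟨he, hb, hT⟩ := hP
  have hT0 : 0 < T := by linarith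
  refine ⟨⟨2 + 2 * K, by linarith, ?_⟩, ⟨2 * T + b + e + K * (T + e), by nlinarith, ?_⟩⟩
  · intro ζ η ε hε hC
    have hsm : ∀ i ≤ w.length, |sm b ζ i - sm b η i| ≤ ε := by
      intro i hi
      unfold sm
      split_ifs with h
      · simpa using hε
      · exact hC.2 (i - 1) (by omega)
    refine ⟨fun i hi => ?_, fun i hi => ?_⟩
    · unfold gradX
      split_ifs with h
      · have h1 := hsm i hi
        have h2 := hC.2 i h
        have h3 := hC.1 i hi
        have h4 := (hL _ (lt_mem w i h) (ζ.1 i) (ζ.2 i) (η.1 i) (η.2 i)).1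
        have h5 : K * (|ζ.1 i - η.1 i| + |ζ.2 i - η.2 i|) ≤ K * (ε + ε) :=
          mul_le_mul_of_nonneg_left (by linarith) hK
        rw [show sm b ζ i - ζ.2 i - (lt w i).gx (ζ.1 i) (ζ.2 i) -
            (sm b η i - η.2 i - (lt w i).gx (η.1 i) (η.2 i))
            = (sm b ζ i - sm b η i) - (ζ.2 i - η.2 i) -
              ((lt w i).gx (ζ.1 i) (ζ.2 i) - (lt w i).gx (η.1 i) (η.2 i)) by ring]
        have h6 := abs_sub (sm b ζ i - sm b η i - (ζ.2 i - η.2 i))
          ((lt w i).gx (ζ.1 i) (ζ.2 i) - (lt w i).gx (η.1 i) (η.2 i))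
        have h7 := abs_sub (sm b ζ i - sm b η i) (ζ.2 i - η.2 i)
        linarith
      · have h1 := hsm i hi
        rw [show sm b ζ i - b - (sm b η i - b) = sm b ζ i - sm b η i by ring]
        nlinarith
    · unfold gradS
      have h1 := hC.1 (i + 1) (by omega)
      have h3 := hC.1 i (by omega)
      have h2 := hC.2 i hi
      have h4 := (hL _ (lt_mem w i hi) (ζ.1 i) (ζ.2 i) (η.1 i) (η.2 i)).2
      have h5 : K * (|ζ.1 i - η.1 i| + |ζ.2 i - η.2 i|) ≤ K * (ε + ε) :=
        mul_le_mul_of_nonneg_left (by linarith) hK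
      rw [show ζ.1 (i + 1) - ζ.1 i - (lt w i).gs (ζ.1 i) (ζ.2 i) -
            (η.1 (i + 1) - η.1 i - (lt w i).gs (η.1 i) (η.2 i))
            = (ζ.1 (i + 1) - η.1 (i + 1)) - (ζ.1 i - η.1 i) -
              ((lt w i).gs (ζ.1 i) (ζ.2 i) - (lt w i).gs (η.1 i) (η.2 i)) by ring]
      have h6 := abs_sub (ζ.1 (i + 1) - η.1 (i + 1) - (ζ.1 i - η.1 i))
          ((lt w i).gs (ζ.1 i) (ζ.2 i) - (lt w i).gs (η.1 i) (η.2 i))
      have h7 := abs_sub (ζ.1 (i + 1) - η.1 (i + 1)) (ζ.1 i - η.1 i)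
      linarith
  · intro ζ hO
    have hsm : ∀ i ≤ w.length, |sm b ζ i| ≤ T := by
      intro i hi
      unfold sm
      split_ifs with h
      · rw [abs_of_pos (by linarith)]; linarith
      · have := hO (i - 1) (by omega)
        rw [abs_of_nonneg this.1]; exact this.2
    have hKT : 0 ≤ K * (T + e) := by positivity
    refine ⟨fun i hi => ?_, fun i hi => ?_⟩
    · unfold gradX
      have h1 := hsm i hi
      split_ifs with h
      · have h2 := ((hw _ (lt_mem w i h)).small (ζ.1 i) (ζ.2 i)).2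
        have h3 : |ζ.2 i| ≤ T := by
          rw [abs_of_nonneg (hO i h).1]; exact (hO i h).2
        have h6 := abs_sub (sm b ζ i - ζ.2 i) ((lt w i).gx (ζ.1 i) (ζ.2 i))
        have h7 := abs_sub (sm b ζ i) (ζ.2 i)
        linarith
      · have h7 := abs_sub (sm b ζ i) b
        rw [abs_of_pos (show 0 < b by linarith)] at h7
        linarith
    · unfold gradS
      rw [show ζ.1 (i + 1) - ζ.1 i - (lt w i).gs (ζ.1 i) (ζ.2 i) - (ζ.1 (i + 1) - ζ.1 i)
        = -((lt w i).gs (ζ.1 i) (ζ.2 i)) by ring, abs_neg]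
      have h1 := (hL _ (lt_mem w i hi) (ζ.1 i) (ζ.2 i) (ζ.1 i) e).2
      rw [((hw _ (lt_mem w i hi)).zero (ζ.1 i) e (Or.inl le_rfl)).2.2, sub_zero, sub_self,
        abs_zero, zero_add] at h1
      have h2 : |ζ.2 i - e| ≤ T + e := by
        have := hO i hi
        rw [abs_le]; constructor <;> linarith
      have h3 := mul_le_mul_of_nonneg_left h2 hK
      linarith

end Pool.Agent.W409.DP
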