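import Pool.Agent.W710.DP.Stm2

/-! Project DP, part TWIST: the twist map is an area preserving diffeomorphism. -/

set_option autoImplicit false

namespace Pool.Agent.W409.DP

open Pool.Agent.W710.DP

/-- the twist with parameter `c` -/
noncomputable def tw (c : ℝ) (z : ℂ) : ℂ := z * Complex.exp (((c * ‖z‖ ^ 2 : ℝ) : ℂ) * Complex.I)

lemma norm_tw (c : ℝ) (z : ℂ) : ‖tw c z‖ = ‖z‖ := by
  unfold tw
  rw [norm_mul, Complex.norm_exp_ofReal_mul_I, mul_one]

lemma tw_tw (c : ℝ) (z : ℂ) : tw (-c) (tw c z) = z := by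
  have h : tw (-c) (tw c z) = tw c z * Complex.exp (((-c * ‖z‖ ^ 2 : ℝ) : ℂ) * Complex.I) := by
    conv_lhs => unfold tw
    rw [show ‖z * Complex.exp (((c * ‖z‖ ^ 2 : ℝ) : ℂ) * Complex.I)‖ = ‖z‖ from norm_tw c z]
    rfl
  rw [h]
  unfold tw
  rw [mul_assoc, ← Complex.exp_add, ← add_mul, ← Complex.ofReal_add,
    show c * ‖z‖ ^ 2 + -c * ‖z‖ ^ 2 = 0 by ring]
  simp

lemma tw_smooth (c : ℝ) : ContDiff ℝ ((⊤ : ℕ∞) : WithTop ℕ∞) (tw c) := by
  unfold tw
  refine contDiff_id.mul ?_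
  refine Complex.contDiff_exp.comp (ContDiff.mul ?_ contDiff_const)
  exact Complex.ofRealCLM.contDiff.comp (contDiff_const.mul (contDiff_norm_sq ℝ))

lemma tw_deriv (c : ℝ) (z : ℂ) : ∃ L : ℂ →L[ℝ] ℂ, HasFDerivAt (tw c) L z ∧
    ∀ h, L h = Complex.exp (((c * ‖z‖ ^ 2 : ℝ) : ℂ) * Complex.I) *
      (h + z * (((2 * c * (z.re * h.re + z.im * h.im) : ℝ) : ℂ) * Complex.I)) := by
  have h1 : HasFDerivAt (fun z : ℂ => c * ‖z‖ ^ 2) (c • (2 • innerSL ℝ z)) z :=
    ((hasStrictFDerivAt_norm_sq z).hasFDerivAt).const_mul c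
  have h2 : HasFDerivAt (fun z : ℂ => ((c * ‖z‖ ^ 2 : ℝ) : ℂ))
      (Complex.ofRealCLM.comp (c • (2 • innerSL ℝ z))) z :=
    (Complex.ofRealCLM.hasFDerivAt (x := c * ‖z‖ ^ 2)).comp z h1
  have h3 := (h2.mul_const Complex.I).cexp
  have h4 := (hasFDerivAt_id (𝕜 := ℝ) z).mul h3
  refine ⟨_, h4, fun h => ?_⟩
  have e : innerSL ℝ z h = z.re * h.re + z.im * h.im := by
    rw [innerSL_apply_apply, Complex.inner]
    simp [Complex.mul_re]
    ring
  simp only [add_apply, smul_apply,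
    ContinuousLinearMap.comp_apply, Complex.ofRealCLM_apply, e, smul_eq_mul, id,
    ContinuousLinearMap.id_apply, nsmul_eq_mul]
  push_cast
  ring

lemma tw_det (c : ℝ) (z : ℂ) :
    LinearMap.det ((fderiv ℝ (tw c) z : ℂ →L[ℝ] ℂ) : ℂ →ₗ[ℝ] ℂ) = 1 := by
  obtain ⟨L, hL, hf⟩ := tw_deriv c z
  rw [hL.fderiv, ← LinearMap.det_toMatrix Complex.basisOneI, Matrix.det_fin_two]
  simp only [LinearMap.toMatrix_apply, Complex.coe_basisOneI_repr, Complex.coe_basisOneI,
    Matrix.cons_val_zero, Matrix.cons_val_one, ContinuousLinearMap.coe_coe, hf]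
  have hE : Complex.exp (((c * ‖z‖ ^ 2 : ℝ) : ℂ) * Complex.I)
      = ⟨Real.cos (c * ‖z‖ ^ 2), Real.sin (c * ‖z‖ ^ 2)⟩ := by
    apply Complex.ext
    · exact Complex.exp_ofReal_mul_I_re _
    · exact Complex.exp_ofReal_mul_I_im _
  rw [hE]
  have hcs := Real.sin_sq_add_cos_sq (c * ‖z‖ ^ 2)
  generalize Real.cos (c * ‖z‖ ^ 2) = a at *
  generalize Real.sin (c * ‖z‖ ^ 2) = b at *
  simp only [Complex.mul_re, Complex.mul_im, Complex.add_re, Complex.add_im, Complex.one_re,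
    Complex.one_im, Complex.I_re, Complex.I_im, Complex.ofReal_re, Complex.ofReal_im]
  linear_combination hcs

/-- the twist as a permutation -/
noncomputable def twP (c : ℝ) : Equiv.Perm ℂ where
  toFun := tw c
  invFun := tw (-c)
  left_inv z := tw_tw c z
  right_inv z := by
    have := tw_tw (-c) z
    rwa [neg_neg] at this

lemma twist_eq (z : ℂ) : twist z = tw (4 * Real.pi ^ 2) z := by
  unfold twist tw ar
  congr 2
  push_cast
  ring

theorem t_twist : S_twist := by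
  refine ⟨⟨twP (4 * Real.pi ^ 2), ⟨tw_smooth _, tw_smooth _, fun z => tw_det _ z⟩,
    fun z => (twist_eq z).symm⟩, ?_⟩
  intro x t ht
  have hE : ‖E x t‖ = Real.sqrt (t / Real.pi) := by
    unfold E
    rw [norm_mul, Complex.norm_real, Real.norm_eq_abs, abs_of_nonneg (Real.sqrt_nonneg _),
      show (2 * Real.pi * x * Complex.I : ℂ) = ((2 * Real.pi * x : ℝ) : ℂ) * Complex.I by
        push_cast; ring, Complex.norm_exp_ofReal_mul_I, mul_one]
  have har : ar (E x t) = t := by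
    unfold ar
    rw [hE, Real.sq_sqrt (div_nonneg ht Real.pi_pos.le)]
    have := Real.pi_ne_zero
    field_simp
  unfold twist
  rw [har]
  unfold E
  rw [mul_assoc, ← Complex.exp_add]
  congr 2
  push_cast
  ring

end Pool.Agent.W409.DP
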